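import Pool.Agent.NH44.HY.Main

/-!
# Infinitely many graphs that are irregular for all small patterns

For every `n ≥ 3` there are infinitely many `n`-hyper-irregular graphs. They are explicit: the
vertices are `0, …, 2l + c` with `c = n + 4` and `l = 20ns`; the vertices `≥ l` form a clique `T`,
the others an independent set `L`, and `a ∈ L`, `b ∈ T` are adjacent when `a + b ≥ 2l` (or
`a + b = 2l - 1` and `a ≥ s`), except when `a + b = 2l + c + s`. So the bipartite graph between `L`
and `T` is a half graph from which a shifted matching is removed. Every sufficiently large `s` is
possible.

Proof. Write `N(v)` for the number of labelled copies of the pattern through `v`. Consecutive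
vertices `v, v + 1` have neighbourhoods that differ in at most three vertices, and `N(v + 1) - N(v)`
is computed by exchanging the two vertices. If `v + 1` has in addition a neighbour `p`, the copies
that use the edge to `p` dominate. If `v` and `v + 1` have the same degree (this is forced for some
vertices; here these are vertices of the clique), one has a neighbour `q'` and the other a neighbour
`q` whose neighbourhoods differ in few vertices `t`; the difference is the number of copies with the
path `v q' t` minus the number of copies with the disjoint edges `v q`, `q' t`. The first number is
of larger order when the pattern has a path with two edges, and it is zero when the pattern is a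
matching with isolated vertices. At two places one neighbour is exchanged for two slightly weaker
ones; there a replacement argument shows that two beat one.
-/

set_option autoImplicit false

namespace Pool.Agent.Results.MP_0c99a5_co.HyperIrregularGraphs

open Pool.Agent.NH44.HY

/-- For every `n ≥ 3` there is a sequence of finite graphs, pairwise not isomorphic, all of which
are `n`-hyper-irregular: for every graph `F` with at most `n` vertices and at least two edges, the
`F`-degrees of different vertices are different. -/
theorem result : ∀ n : ℕ, 3 ≤ n →
    ∃ G : (i : ℕ) → Σ N : ℕ, SimpleGraph (Fin N),
      (∀ i, 2 ≤ (G i).1 ∧ HyperIrregular n (G i).2) ∧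
        ∀ i j, i ≠ j → IsEmpty ((G i).2 ≃g (G j).2) := by
  intro n hn
  refine ⟨fun i => ⟨2 * (20 * n * (KK n + 10 * n + 100 + i)) + (n + 4) + 1,
    GG (20 * n * (KK n + 10 * n + 100 + i)) (KK n + 10 * n + 100 + i) (n + 4)⟩, ?_, ?_⟩
  · intro i
    exact ⟨by simp only; omega, hyperIrregular n _ hn (by omega)⟩
  · intro i j hij
    refine ⟨fun e => hij ?_⟩
    have h := Fintype.card_congr e.toEquiv
    simp only [Fintype.card_fin] at h
    have h1 : 20 * n * (KK n + 10 * n + 100 + i) = 20 * n * (KK n + 10 * n + 100 + j) := by omega
    have h2 := Nat.eq_of_mul_eq_mul_left (by omega : 0 < 20 * n) h1
    omega

end Pool.Agent.Results.MP_0c99a5_co.HyperIrregularGraphs
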